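import Pool.Agent.L0h26.H1.A1

/-!
# H1: the classes `5` modulo `8`
-/

set_option autoImplicit false
set_option linter.unusedSectionVars false

namespace Pool.Agent.L0h23.H1

open Pool.Agent.Y698 Pool.Agent.Y698.SG Pool.Agent.L0h4.TW
open Pool.Agent.L0h23.ED (kn kl kb k7 S_R2 C5 r8 r8_aR)
open Pool.Agent.L0h75.H1
open Pool.Agent.W192.HK (sp)
open Pool.Agent.L0h23.AW (two0 rowcol)
open Pool.Agent.L0h26.H1

variable {Q S : Finset ℕ} {ϖ : ℕ → RR}

lemma ar5 : ∀ (s y : Bool) (c u : ZMod 8) (l : ZMod 2), C5 c l →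
    (if s then -1 else 1) * (if y then 6 else 1) * c - 1 = 6 ^ 2 * u → s = false ∧ y = false := by
  intro s y c u l hc
  unfold C5 at hc
  rcases hc with ⟨rfl, rfl⟩ | ⟨rfl, rfl⟩ <;> revert s y u <;> decide

theorem t_A5 : Pool.Agent.L0h75.H1.S_A5 := by
  classical
  intro r2 hFAC hEQJ _ _ Q S ϖ h hD hns δ hsel
  set D := ∏ p ∈ Q ∪ S, p with hDd
  have hprod : ∏ i ∈ ix Q S, pfx Q ϖ i = (D : RR) := prod_pfx h (by rw [← hDd]; omega)
  have hK : Kap (1 : RR) 0 := Or.inl ⟨rfl, Or.inl rfl⟩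
  have hm : -fR * (D : RR) = mK Q S ϖ 1 := by
    unfold mK
    rw [hprod, one_mul]
  have hmg : mK Q S ϖ 1 = gg false true false false * ∏ i ∈ ix Q S, pfx Q ϖ i := by
    unfold mK gg
    simp
  rw [hm] at hsel ⊢
  obtain ⟨s, e, y, z, T, hT, hδ⟩ := hFAC Q S ϖ h 1 δ 0 hK hsel.odd
  have hodd := hsel.odd
  rw [hδ] at hodd
  have hJ := hEQJ r2 Q S ϖ h 1 0 hK s e y z T hT hodd
  -- the place `aR`
  have hsy : s = false ∧ y = false := by
    obtain ⟨c, l, hc, hr⟩ := c5_g h hT s e y z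
    rw [← hδ] at hr
    obtain ⟨u, hu⟩ := hsel.st
    have h1 := congrArg r8 hu
    rw [map_sub, map_one, map_mul, map_pow, r8_aR, hr] at h1
    exact ar5 s y c (r8 u) l hc h1
  obtain ⟨rfl, rfl⟩ := hsy
  -- the other place above two
  have hz : z = false := by
    cases z
    · rfl
    · exfalso
      apply hsel.ev
      rw [hδ]
      refine Dvd.dvd.mul_right ?_ _
      refine ⟨-((if false then -1 else 1) * (if e then -fR else 1)), ?_⟩
      unfold gg
      simp only [if_true, Bool.false_eq_true, if_false]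
      ring
  subst hz
  -- the sums
  have hn : ∑ i ∈ ix Q S, kn (pfx Q ϖ) i = 0 := by
    have h2 := h.ntsum
    rw [Finset.sum_congr rfl fun i hi => by rw [h.pf hi]] at h2
    exact h2
  have hb : b2 false = 0 := rfl
  have k3 : ∀ i ∈ ix Q S, (if i ∈ T then 1 else 0) + b2 e = 0 := by
    refine ns_ker hns (v := fun i => (if i ∈ T then 1 else 0) + b2 e) fun j hj => ?_
    rw [e7_k7 h hj, rowcol hn (Pool.Agent.L0h61.EV.Dt.recp h) hj]
    have h5 := hJ j hj
    rw [sy_one' (h.fx.pd j hj).pr, lg_one, hb] at h5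
    have h6 : ∑ i ∈ (ix Q S).erase j, mr (pfx Q ϖ) i j * ((if i ∈ T then 1 else 0) + b2 e) =
        ∑ i ∈ (ix Q S).erase j, mr (pfx Q ϖ) i j * (if i ∈ T then 1 else 0) +
        (∑ i ∈ (ix Q S).erase j, mr (pfx Q ϖ) i j) * b2 e := by
      rw [Finset.sum_mul, ← Finset.sum_add_distrib]
      exact Finset.sum_congr rfl fun i _ => by ring
    rw [h6]
    linear_combination h5 + (b2 e * (∑ i ∈ (ix Q S).erase j, mr (pfx Q ϖ) i j) +
      ((if j ∈ T then 1 else 0) + b2 e) * kn (pfx Q ϖ) j) * two0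
  rw [hδ, hmg]
  cases e
  · left
    have hT0 : T = ∅ := by
      rw [Finset.eq_empty_iff_forall_notMem]
      intro i hi
      have h5 := k3 i (hT hi)
      rw [hb, add_zero, if_pos hi] at h5
      exact absurd h5 (by decide)
    rw [hT0]
    unfold gg
    simp
  · right
    have hb1 : b2 true = 1 := rfl
    have hT1 : T = ix Q S := by
      refine Finset.Subset.antisymm hT fun i hi => ?_
      by_contra hc
      have h5 := k3 i hi
      rw [hb1, if_neg hc] at h5
      exact absurd h5 (by decide)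
    rw [hT1]

end Pool.Agent.L0h23.H1
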