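import Pool.Agent.L0h23.AW.Lin
import Pool.Agent.L0h75.H1.Stm
import Pool.Agent.L0h23.ED.Fin
import Pool.Agent.L0h61.EV.T2

/-!
# H1: the even numbers
-/

set_option autoImplicit false
set_option linter.unusedSectionVars false

namespace Pool.Agent.L0h23.H1

open Pool.Agent.Y698 Pool.Agent.Y698.SG Pool.Agent.L0h4.TW
open Pool.Agent.L0h23.ED (kn kl kb k7 NS3 NSE S_R2 prime_aR prime_bR prime_cR abR pr_i prod_sgn' bz
  d12 lgm mul_notin neg_notin' c_notin c5_G C5 r8 r8_aR dvd_a3 na_G na_prod sum_ind two_notin' lam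
  lab ar_AE bz_zero)
open Pool.Agent.L0h75.H1
open Pool.Agent.W192.HK (sp)
open Pool.Agent.L0h61.EV (sum_lam u8)
open Pool.Agent.L0h23.AW (two0 linE)

variable {Q S : Finset ℕ} {ϖ : ℕ → RR}

lemma a_notin (h : Dt Q S ϖ) {j : ℕ × Bool} (hj : j ∈ ix Q S) : aR ∉ sp (pfx Q ϖ j) := by
  intro h0
  have h1 := two_notin' h hj
  apply h1
  rw [← abR]
  exact Ideal.mul_mem_right _ _ h0

/-- the symbol of `aR` -/
lemma lg_a (r2 : S_R2) (h : Dt Q S ϖ) {j : ℕ × Bool} (hj : j ∈ ix Q S) :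
    lg (sy (pfx Q ϖ j) aR) = kl (pfx Q ϖ) j + kn (pfx Q ϖ) j := by
  have hp := pr_i h hj
  have h2 := r2.sy_two _ _ (d12 h hj)
  have hb := r2.sy_b _ _ (d12 h hj)
  have e : (2 : RR) = -1 * aR * (aR - 1) := by linear_combination -abR
  rw [e, lgm hp (mul_notin hp (neg_notin' h hj) (a_notin h hj)) (c_notin h hj),
    lgm hp (neg_notin' h hj) (a_notin h hj), hb] at h2
  have h3 : lg (sy (pfx Q ϖ j) (-1)) = kn (pfx Q ϖ) j := rfl
  rw [h3] at h2
  show _ = lam (pfx Q ϖ j) + _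
  linear_combination h2 - (kn (pfx Q ϖ) j) * two0

/-- the symbol of `± 2` -/
lemma lg_pm2 (r2 : S_R2) (h : Dt Q S ϖ) {j : ℕ × Bool} (hj : j ∈ ix Q S) {κ : RR} {ε : ZMod 2}
    (hκ : (κ = 2 ∧ ε = 0) ∨ (κ = -2 ∧ ε = 1)) :
    lg (sy (pfx Q ϖ j) κ) = kl (pfx Q ϖ) j + kb (pfx Q ϖ) j + ε * kn (pfx Q ϖ) j := by
  have hp := pr_i h hj
  have h2 := r2.sy_two _ _ (d12 h hj)
  rcases hκ with ⟨rfl, rfl⟩ | ⟨rfl, rfl⟩
  · rw [h2, zero_mul, add_zero]
    rfl
  · have e : (-2 : RR) = -1 * 2 := by ring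
    rw [e, lgm hp (neg_notin' h hj) (two_notin' h hj), h2]
    have h3 : lg (sy (pfx Q ϖ j) (-1)) = kn (pfx Q ϖ) j := rfl
    rw [h3]
    show _ = lam (pfx Q ϖ j) + lab (pfx Q ϖ j) + _
    ring

lemma gg_cc (s e y z : Bool) : gg s e y z = Pool.Agent.L0h23.ED.cc s e y z := rfl

lemma cc_y (s e z : Bool) : gg s e true z = aR * gg s e false z := by
  unfold gg
  simp only [if_true, Bool.false_eq_true, if_false]
  ring

lemma not_one {x : RR} (h : aR ^ 3 ∣ aR * x - 1) : False := by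
  have h1 : aR ∣ aR * x - 1 := (dvd_pow_self _ (by norm_num)).trans h
  have h2 : aR ∣ 1 := by
    have := dvd_sub (Dvd.intro x rfl : aR ∣ aR * x) h1
    simpa using this
  exact prime_aR.not_isUnit (isUnit_of_dvd_one h2)

/-- the arithmetic modulo eight -/
lemma ar8 : ∀ (s s' : Bool) (c c' : ZMod 8) (l l' : ZMod 2), C5 c l → C5 c' l' →
    ((if s then -1 else 1) * c) * ((if s' then -1 else 1) * c') = 1 → s = s' ∧ l + l' = 0 := by
  intro s s' c c' l l' hc hc'
  unfold C5 at hc hc'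
  rcases hc with ⟨rfl, rfl⟩ | ⟨rfl, rfl⟩ <;> rcases hc' with ⟨rfl, rfl⟩ | ⟨rfl, rfl⟩ <;>
    revert s s' <;> decide

lemma b2_bz (s : Bool) : b2 s = bz s := rfl

lemma b2_zero {s : Bool} (h : b2 s = 0) : s = false := bz_zero h

lemma b2_one {s : Bool} (h : b2 s + 1 = 0) : s = true := by
  cases s
  · exact absurd h (by decide)
  · rfl

theorem t_AE : Pool.Agent.L0h75.H1.S_AE := by
  classical
  intro r2 hFAC hEQJ hEQ7 _ Q S ϖ h hns δ hsel
  set M := ∏ p ∈ Q ∪ S, p with hM
  have hMo : M % 2 = 1 := by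
    have := (Pool.Agent.L0h61.EV.u8_prod (R := Q ∪ S) fun q hq => by
      rcases Finset.mem_union.1 hq with hq | hq
      · exact (h.q q hq).odd
      · exact (h.p q hq).odd).1
    rwa [← hM] at this
  -- the sign
  obtain ⟨κ, ε, s', hK, hκ, hε, hs', hκM⟩ : ∃ (κ : RR) (ε : ZMod 2) (s' : Bool), Kap κ ε ∧
      ((κ = 2 ∧ ε = 0) ∨ (κ = -2 ∧ ε = 1)) ∧ ε = (if M % 4 = 3 then 1 else 0) ∧ b2 s' = 1 + ε ∧
      ((2 * M : ℕ) : RR) = κ * ∏ i ∈ ix Q S, pfx Q ϖ i := by
    rcases prod_sgn' h with ⟨h1, h2⟩ | ⟨h1, h2⟩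
    · rw [← hM] at h1 h2
      refine ⟨2, 0, true, Or.inl ⟨rfl, Or.inr rfl⟩, Or.inl ⟨rfl, rfl⟩, by rw [if_neg (by omega)],
        by decide, ?_⟩
      push_cast
      rw [h2]
    · rw [← hM] at h1 h2
      refine ⟨-2, 1, false, Or.inr ⟨rfl, Or.inr rfl⟩, Or.inr ⟨rfl, rfl⟩, by rw [if_pos h1],
        by decide, ?_⟩
      push_cast
      rw [h2]
      ring
  have hm : -fR * ((2 * M : ℕ) : RR) = mK Q S ϖ κ := by
    unfold mK
    rw [hκM]
  have hmg : mK Q S ϖ κ = gg s' true true true * ∏ i ∈ ix Q S, pfx Q ϖ i := by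
    unfold mK
    have e : (2 : RR) = -1 * aR * (aR - 1) := by linear_combination -abR
    rcases hκ with ⟨h1, h2⟩ | ⟨h1, h2⟩
    · have hs1 : s' = true := by
        rw [h2] at hs'
        revert hs'
        cases s' <;> decide
      rw [h1, hs1]
      unfold gg
      simp only [if_true]
      linear_combination (-fR * ∏ i ∈ ix Q S, pfx Q ϖ i) * e
    · have hs1 : s' = false := by
        rw [h2] at hs'
        revert hs'
        cases s' <;> decide
      rw [h1, hs1]
      unfold gg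
      simp only [if_true, Bool.false_eq_true, if_false]
      linear_combination (fR * ∏ i ∈ ix Q S, pfx Q ϖ i) * e
  rw [hm] at hsel ⊢
  obtain ⟨s, e, y, z, T, hT, hδ⟩ := hFAC Q S ϖ h κ δ ε hK hsel.odd
  have hodd := hsel.odd
  rw [hδ] at hodd
  have hJ := hEQJ r2 Q S ϖ h κ ε hK s e y z T hT hodd
  have h7 := hEQ7 Q S ϖ h κ ε hK s e y z T hT hodd
  set x : ℕ × Bool → ZMod 2 := fun i => if i ∈ T then 1 else 0 with hx
  -- the place `aR`
  have hst : s = (y && s') ∧ (b2 z + b2 y) + (b2 e + b2 y) +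
      ∑ i ∈ ix Q S, kl (pfx Q ϖ) i * (x i + b2 y) = 0 := by
    have hxl : ∑ i ∈ ix Q S, kl (pfx Q ϖ) i * x i = ∑ i ∈ T, kl (pfx Q ϖ) i := sum_ind hT _
    obtain ⟨c, hc, hr⟩ := c5_G h hT s e z
    have hna := na_G h hT s e z
    rw [← gg_cc] at hna hr
    cases y
    · -- `aR` does not divide `δ`
      have h1 : r8 (gg s e false z * ∏ i ∈ T, pfx Q ϖ i) = 1 := by
        rcases hsel.st with ⟨y', h2 | h2, h3⟩ | ⟨y', h2 | h2, h3⟩
        · rw [hδ] at h2
          rw [← h2] at h3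
          rw [dvd_a3, map_sub, map_one, sub_eq_zero] at h3
          exact h3
        · exfalso
          rw [hδ] at h2
          exact hna ⟨aR * y', by rw [h2]; ring⟩
        · exfalso
          rw [hδ, hmg, cc_y] at h2
          rw [← h2] at h3
          exact not_one (x := gg s e false z * (∏ i ∈ T, pfx Q ϖ i) * (gg s' true false true *
            ∏ i ∈ ix Q S, pfx Q ϖ i)) (by
            refine h3.trans (dvd_of_eq ?_)
            ring)
        · exfalso
          rw [hδ, hmg, cc_y] at h2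
          have h4 : gg s e false z * (∏ i ∈ T, pfx Q ϖ i) * (gg s' true false true *
            ∏ i ∈ ix Q S, pfx Q ϖ i) = aR * y' := by
            apply mul_left_cancel₀ prime_aR.ne_zero
            linear_combination h2
          rcases prime_aR.dvd_or_dvd (Dvd.intro y' h4.symm) with h5 | h5
          · exact hna h5
          · exact na_G h (Finset.Subset.refl _) s' true true h5
      rw [hr] at h1
      obtain ⟨h2, h3⟩ := ar_AE s c _ hc h1
      refine ⟨by rw [h2]; rfl, ?_⟩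
      have hb : b2 false = 0 := rfl
      simp only [hb, add_zero]
      rw [hxl]
      rw [← b2_bz, ← b2_bz] at h3
      linear_combination h3
    · -- `aR` divides `δ`
      obtain ⟨c', hc', hr'⟩ := c5_G h (Finset.Subset.refl (ix Q S)) s' true true
      have hna' := na_G h (Finset.Subset.refl (ix Q S)) s' true true
      rw [← gg_cc] at hna' hr'
      have h1 : r8 ((gg s e false z * ∏ i ∈ T, pfx Q ϖ i) *
          (gg s' true false true * ∏ i ∈ ix Q S, pfx Q ϖ i)) = 1 := by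
        rcases hsel.st with ⟨y', h2 | h2, h3⟩ | ⟨y', h2 | h2, h3⟩
        · exfalso
          rw [hδ, cc_y] at h2
          rw [← h2] at h3
          exact not_one (x := gg s e false z * ∏ i ∈ T, pfx Q ϖ i) (by
            refine h3.trans (dvd_of_eq ?_)
            ring)
        · exfalso
          rw [hδ, cc_y] at h2
          refine hna ⟨y', ?_⟩
          apply mul_left_cancel₀ prime_aR.ne_zero
          linear_combination h2
        · exfalso
          rw [hδ, hmg, cc_y, cc_y] at h2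
          rw [← h2] at h3
          exact not_one (x := aR * ((gg s e false z * ∏ i ∈ T, pfx Q ϖ i) *
            (gg s' true false true * ∏ i ∈ ix Q S, pfx Q ϖ i))) (by
            refine h3.trans (dvd_of_eq ?_)
            ring)
        · rw [hδ, hmg, cc_y, cc_y] at h2
          have h4 : (gg s e false z * ∏ i ∈ T, pfx Q ϖ i) *
            (gg s' true false true * ∏ i ∈ ix Q S, pfx Q ϖ i) = y' := by
            apply mul_left_cancel₀ (pow_ne_zero 2 prime_aR.ne_zero)
            linear_combination h2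
          rw [← h4, dvd_a3, map_sub, map_one, sub_eq_zero] at h3
          exact h3
      rw [map_mul, hr, hr'] at h1
      obtain ⟨h2, h3⟩ := ar8 s s' c c' _ _ hc hc' h1
      refine ⟨by rw [h2]; rfl, ?_⟩
      have e1 : ∑ i ∈ ix Q S, kl (pfx Q ϖ) i * (x i + b2 true) =
          ∑ i ∈ T, kl (pfx Q ϖ) i + ∑ i ∈ ix Q S, kl (pfx Q ϖ) i := by
        rw [← hxl, ← Finset.sum_add_distrib]
        refine Finset.sum_congr rfl fun i _ => ?_
        have hb : b2 true = 1 := rfl
        rw [hb]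
        ring
      rw [e1]
      have hb : b2 true = 1 := rfl
      have hb' : bz true = 1 := rfl
      rw [hb]
      rw [hb', ← b2_bz, ← b2_bz] at h3
      linear_combination h3
  obtain ⟨hs, h1⟩ := hst
  -- the sums
  have hn : ∑ i ∈ ix Q S, kn (pfx Q ϖ) i = 0 := by
    have h2 := h.ntsum
    rw [Finset.sum_congr rfl fun i hi => by rw [h.pf hi]] at h2
    exact h2
  have hw : ∑ i ∈ ix Q S, kb (pfx Q ϖ) i = if M % 8 = 3 ∨ M % 8 = 5 then 1 else 0 := by
    have h2 := (sum_lam h).2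
    rw [← hM] at h2
    have h3 : ∑ i ∈ ix Q S, kb (pfx Q ϖ) i = u8 M := h2
    rw [h3]
    unfold u8
    by_cases h4 : M % 8 = 1 ∨ M % 8 = 7
    · rw [if_pos h4, if_neg (by omega)]
    · rw [if_neg h4, if_pos (by omega)]
  have hsy : b2 s = b2 y * (1 + ε) := by
    rw [← hs', hs]
    cases y <;> cases s' <;> decide
  have key := linE (I := ix Q S) (n := kn (pfx Q ϖ)) (l := kl (pfx Q ϖ)) (lb := kb (pfx Q ϖ))
    (m7 := k7 (pfx Q ϖ)) (p := fun i => k7 (pfx Q ϖ) i + kn (pfx Q ϖ) i)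
    (m := mr (pfx Q ϖ)) hn (fun i _ => rfl) (Pool.Agent.L0h61.EV.Dt.recp h)
    (nb := ε) (w := if M % 8 = 3 ∨ M % 8 = 5 then 1 else 0) hw (by rw [hε]; exact hns)
    (z := b2 z + b2 y) (e := b2 e + b2 y) (x := fun i => x i + b2 y) h1 (fun j hj => ?_) ?_
  · obtain ⟨k1, k2, k3⟩ := key
    cases y
    · left
      have hb : b2 false = 0 := rfl
      rw [hb, add_zero] at k1 k2
      have hT0 : T = ∅ := by
        rw [Finset.eq_empty_iff_forall_notMem]
        intro i hi
        have h5 := k3 i (hT hi)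
        simp only [hx, hb, add_zero] at h5
        rw [if_pos hi] at h5
        exact absurd h5 (by decide)
      rw [hδ, b2_zero k1, b2_zero k2, hT0, hs]
      unfold gg
      simp
    · right
      have hb : b2 true = 1 := rfl
      rw [hb] at k1 k2
      have hT1 : T = ix Q S := by
        refine Finset.Subset.antisymm hT fun i hi => ?_
        by_contra hc
        have h5 := k3 i hi
        simp only [hx, hb] at h5
        rw [if_neg hc] at h5
        exact absurd h5 (by decide)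
      rw [hδ, hmg, b2_one k1, b2_one k2, hT1, hs]
      rfl
  · -- the equations at the odd places
    have h5 := hJ j hj
    rw [lg_a r2 h hj, lg_pm2 r2 h hj hκ, hsy] at h5
    have h6 : ∑ i ∈ (ix Q S).erase j, mr (pfx Q ϖ) i j * (x i + b2 y) =
        ∑ i ∈ (ix Q S).erase j, mr (pfx Q ϖ) i j * (if i ∈ T then 1 else 0) +
        b2 y * ∑ i ∈ (ix Q S).erase j, mr (pfx Q ϖ) i j := by
      rw [Finset.mul_sum, ← Finset.sum_add_distrib]
      exact Finset.sum_congr rfl fun i _ => by simp only [hx]; ring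
    rw [h6]
    simp only [hx]
    linear_combination h5 + (b2 y * (kb (pfx Q ϖ) j + k7 (pfx Q ϖ) j +
      ∑ i ∈ (ix Q S).erase j, mr (pfx Q ϖ) i j)) * two0 - b2 y * kn (pfx Q ϖ) j * two0
  · -- the equation at `√-7`
    rw [hsy] at h7
    have h6 : ∑ i ∈ ix Q S, (k7 (pfx Q ϖ) i + kn (pfx Q ϖ) i) * (x i + b2 y) =
        ∑ i ∈ T, (k7 (pfx Q ϖ) i + kn (pfx Q ϖ) i) +
        b2 y * ∑ i ∈ ix Q S, (k7 (pfx Q ϖ) i + kn (pfx Q ϖ) i) := by
      rw [← sum_ind hT, Finset.mul_sum, ← Finset.sum_add_distrib]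
      exact Finset.sum_congr rfl fun i _ => by simp only [hx]; ring
    rw [h6]
    linear_combination h7 + (b2 y * ∑ i ∈ ix Q S, (k7 (pfx Q ϖ) i + kn (pfx Q ϖ) i)) * two0

end Pool.Agent.L0h23.H1
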